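import Pool.Agent.Lib.helper10.RedBlue
import Pool.Agent.Lib.helper10.NPPred

namespace Pool.Agent.Results.MP_42fe4d_lc.NPHard

open Pool.Agent.Cx Finset

/-- `A` is partitioned into `m` classes, each with property `P` -/
def Splits {V : Type} (P : Finset V → Prop) (m : ℕ) (A : Finset V) : Prop :=
  ∃ c : V → ℕ, (∀ u ∈ A, c u < m) ∧ ∀ i < m, P {u ∈ A | c u = i}

/-- the subgraph of `G` induced on `I` is partitionable -/
def Partitionable {V : Type} [DecidableEq V] (G : SimpleGraph V) (I : Finset V) : Prop :=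
  ∃ a w, 2 ≤ a ∧ 2 ≤ w ∧ I.card = a * w + 1 ∧
    ∀ v ∈ I, Splits (G.IsNClique w) a (I.erase v) ∧ Splits (G.IsNIndepSet a) w (I.erase v)

/-- the sum of `x_v = p_v / q` over `I` -/
def xs (z : List (List Bool) × List ℕ × ℕ) (I : Finset (Fin z.1.length)) : ℚ :=
  ∑ v ∈ I, (z.2.1.getD v 0 : ℚ) / z.2.2

/-- a graph and a point of `[0, 1]^V` that satisfies all clique inequalities -/
def Valid (z : List (List Bool) × List ℕ × ℕ) : Prop :=
  IsGraph z.1 ∧ z.2.1.length = z.1.length ∧ 0 < z.2.2 ∧ (∀ t ∈ z.2.1, t ≤ z.2.2) ∧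
    ∀ K : Finset (Fin z.1.length), (graphOf z.1).IsClique (K : Set _) → xs z K ≤ 1

/-- some partitionable graph inequality is violated -/
def Viol (z : List (List Bool) × List ℕ × ℕ) : Prop :=
  ∃ I, Partitionable (graphOf z.1) I ∧
    ∀ S ⊆ I, (graphOf z.1).IsIndepSet (S : Set _) → (S.card : ℚ) < xs z I

def nc (k p q : ℕ) : Prop :=
  p ≠ q ∧ p + 1 ≠ q ∧ q + 1 ≠ p ∧ (p ≠ 0 ∨ q ≠ 2 * k) ∧ (q ≠ 0 ∨ p ≠ 2 * k)

def ok (M : List (List Bool)) (k : ℕ) (a b : ℕ × ℕ) : Prop :=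
  nc k a.1 b.1 ∧ ((a.1 = 2 * k ∧ a.2 = 0) ∨ (b.1 = 2 * k ∧ b.2 = 0) ∨
    (a.1 ≠ 2 * k ∧ b.1 ≠ 2 * k ∧ ent M a.2 b.2 = true))

instance (M : List (List Bool)) (k : ℕ) (a b : ℕ × ℕ) : Decidable (ok M k a b) := by
  unfold ok nc; infer_instance

section
variable {V : Type} [DecidableEq V] {G : SimpleGraph V} {M : List (List Bool)} {k : ℕ}
  {f : V → ℕ × ℕ} (h1 : ∀ a b, G.Adj a b ↔ ok M k (f a) (f b))
  (h2 : ∀ p, (∃ a, f a = p) ↔ p.1 ≤ 2 * k ∧ p.2 < M.length) (h3 : f.Injective)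
  (hk : 2 ≤ k)
include h1 h2 hk

lemma clq_le {K : Finset V} (h : G.IsClique (K : Set V)) : K.card ≤ k := by
  have a : ∀ a ∈ K, ∀ b ∈ K, a ≠ b → nc k (f a).1 (f b).1 := fun a ha b hb e =>
    ((h1 _ _).1 (h ha hb e)).1
  have b : ∀ a, (f a).1 ≤ 2 * k := fun a => ((h2 _).1 ⟨a, rfl⟩).1
  have := card_le_card_of_injOn (s := K ×ˢ range 2) (t := range (2 * k + 1))
    (fun x => if x.2 = 0 then (f x.1).1 else if (f x.1).1 = 2 * k then 0 else (f x.1).1 + 1)
    (fun x _ => by have := b x.1; simp only [coe_range, Set.mem_Iio]; split_ifs <;> omega) (by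
      rintro ⟨x, i⟩ hx ⟨y, j⟩ hy e
      simp only [coe_product, Set.mem_prod, mem_coe, mem_range] at hx hy e
      have := b x
      have := b y
      by_cases c : x = y
      · subst c
        rw [Prod.ext_iff]; split_ifs at e <;> simp <;> omega
      · have := a x hx.1 y hy.1 c
        unfold nc at this
        split_ifs at e <;> omega)
  simp at this; omega

include h3

lemma back (hM : IsGraph M) {I : Finset V} (h : Partitionable G I)
    (g : ∀ S ⊆ I, G.IsIndepSet (S : Set V) → S.card * k < I.card) : HasClq M k := by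
  obtain ⟨a, w, a1, a2, a3, a4⟩ := h
  obtain ⟨v, hv⟩ := card_pos.1 (show 0 < I.card by omega)
  obtain ⟨⟨c, -, c2⟩, d, -, d2⟩ := a4 v hv
  have e := g _ ((filter_subset _ _).trans (erase_subset _ _)) (d2 0 (by omega)).1
  rw [(d2 0 (by omega)).2, a3] at e
  have kw : k ≤ w := Nat.le_of_mul_le_mul_left (Nat.le_of_lt_succ e) (by omega)
  obtain ⟨K, k1, k2⟩ : ∃ K, G.IsNClique w K ∧ ∀ x ∈ K, f x ≠ (2 * k, 0) := by
    by_contra hc
    push Not at hc
    obtain ⟨x, x1, x2⟩ := hc _ (c2 0 (by omega))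
    obtain ⟨y, y1, y2⟩ := hc _ (c2 1 (by omega))
    rw [h3 (x2.trans y2.symm)] at x1
    simp only [mem_filter] at x1 y1
    omega
  have k3 : ∀ x ∈ K, ∀ y ∈ K, x ≠ y → ent M (f x).2 (f y).2 = true := fun x hx y hy e => by
    obtain ⟨-, c | c | c⟩ := (h1 _ _).1 (k1.1 hx hy e)
    exacts [absurd (Prod.ext c.1 c.2) (k2 x hx), absurd (Prod.ext c.1 c.2) (k2 y hy), c.2.2]
  obtain ⟨T, t1, t2⟩ := exists_subset_card_eq (s := K) (n := k) (k1.2 ▸ kw)
  refine ⟨T.image fun x => (f x).2, ?_, ?_, ?_⟩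
  · simp only [forall_mem_image]
    exact fun x _ => ((h2 _).1 ⟨x, rfl⟩).2
  · rw [card_image_of_injOn, t2]
    intro x hx y hy e
    by_contra c
    exact (ent_lt hM (k3 x (t1 hx) y (t1 hy) c)).2.2 e
  · simp only [forall_mem_image]
    exact fun x hx y hy e => k3 x (t1 hx) y (t1 hy) fun c => e (by rw [c])

lemma forth (hM : IsGraph M) (h : HasClq M k) : ∃ I, Partitionable G I ∧
    ∀ S ⊆ I, G.IsIndepSet (S : Set V) → S.card * k < I.card := by
  obtain ⟨S, s1, s2, s3⟩ := h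
  obtain ⟨u, u1, u2, u3⟩ : ∃ u : ℕ → ℕ, u k = 0 ∧ (∀ i ≤ k, u i < M.length) ∧
      ∀ i < k, ∀ j < k, i ≠ j → ent M (u i) (u j) = true := by
    refine ⟨fun i => if h : i < k then S.orderEmbOfFin s2 ⟨i, h⟩ else 0, by simp, fun i _ => ?_,
      fun i hi j hj e => ?_⟩
    · have := s1 _ (S.orderEmbOfFin_mem s2 ⟨0, by omega⟩)
      simp only
      split_ifs
      exacts [s1 _ (S.orderEmbOfFin_mem s2 _), by omega]
    · simp only [dif_pos hi, dif_pos hj]
      exact s3 _ (S.orderEmbOfFin_mem s2 _) _ (S.orderEmbOfFin_mem s2 _) (by simpa)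
  have : ∀ p, ∃ a, p ≤ 2 * k → f a = (p, u (p / 2)) := fun p => by
    by_cases c : p ≤ 2 * k
    · exact ((h2 (p, u (p / 2))).2 ⟨c, u2 _ (by omega)⟩).imp fun _ e _ => e
    · exact ((h2 (0, u 0)).2 ⟨by omega, u2 _ (by omega)⟩).imp fun _ _ e => absurd e c
  choose φ hφ using this
  obtain ⟨I, hI⟩ : ∃ I : Finset V, ∀ a, a ∈ I ↔ ∃ p ≤ 2 * k, φ p = a :=
    ⟨(range (2 * k + 1)).image φ, by simp⟩
  have inj : ∀ p ≤ 2 * k, ∀ q ≤ 2 * k, φ p = φ q → p = q := fun p hp q hq e => by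
    simpa [hφ p hp, hφ q hq, -Prod.mk.injEq] using congrArg (fun a => (f a).1) e
  have adj : ∀ p ≤ 2 * k, ∀ q ≤ 2 * k, (G.Adj (φ p) (φ q) ↔ nc k p q) := fun p hp q hq => by
    rw [h1, hφ p hp, hφ q hq]
    refine ⟨fun h => h.1, fun h => ⟨h, ?_⟩⟩
    by_cases c : p = 2 * k
    · simp [c, u1]
    by_cases c' : q = 2 * k
    · simp [c', u1]
    unfold nc at h
    exact Or.inr (Or.inr ⟨c, c', u3 _ (by omega) _ (by omega) (by omega)⟩)
  have cI : I.card = 2 * k + 1 := by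
    rw [← card_range (2 * k + 1)]
    refine (card_nbij φ (fun p hp => (hI _).2 ⟨p, by simpa [Nat.lt_succ_iff] using hp, rfl⟩)
      (fun p hp q hq => inj p (by simpa [Nat.lt_succ_iff] using hp) q
        (by simpa [Nat.lt_succ_iff] using hq)) fun a ha => ?_).symm
    simpa [Nat.lt_succ_iff] using (hI a).1 ha
  refine ⟨I, ⟨2, k, le_rfl, hk, cI, fun v hv => ?_⟩, fun T hT e => ?_⟩
  · obtain ⟨r, hr, rfl⟩ := (hI v).1 hv
    let s : V → ℕ := fun a => if r < (f a).1 then (f a).1 - r - 1 else (f a).1 + 2 * k - r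
    have hs : ∀ p ≤ 2 * k, s (φ p) = if r < p then p - r - 1 else p + 2 * k - r := fun p hp => by
      simp only [s, hφ p hp]
    have mem : ∀ a ∈ I.erase (φ r), ∃ p ≤ 2 * k, p ≠ r ∧ φ p = a := fun a ha => by
      obtain ⟨p, hp, rfl⟩ := (hI a).1 (mem_of_mem_erase ha)
      exact ⟨p, hp, fun e => ne_of_mem_erase ha (by rw [e]), rfl⟩
    have key : ∀ (c g : ℕ → ℕ) (i m : ℕ), (∀ t, (t < 2 * k ∧ c t = i) ↔ ∃ j < m, g j = t) →
        g.Injective → #{a ∈ I.erase (φ r) | c (s a) = i} = m := fun c g i m g1 g2 => by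
      rw [← card_range m]
      refine (card_nbij (fun j => φ (if g j + r < 2 * k then g j + r + 1 else g j + r - 2 * k))
        (fun j hj => ?_) (fun j hj j' hj' e => g2 ?_) fun a ha => ?_).symm
      · obtain ⟨b1, b2⟩ := (g1 _).2 ⟨j, by simpa using hj, rfl⟩
        have b3 : (if g j + r < 2 * k then g j + r + 1 else g j + r - 2 * k) ≤ 2 * k := by
          split_ifs <;> omega
        refine mem_coe.2 (mem_filter.2 ⟨mem_erase.2 ⟨fun e => ?_, (hI _).2 ⟨_, b3, rfl⟩⟩, ?_⟩)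
        · have := inj _ b3 _ hr e
          split_ifs at this <;> omega
        · rw [hs _ b3, ← b2]
          congr 1
          split_ifs <;> omega
      · have b1 := ((g1 _).2 ⟨j, by simpa using hj, rfl⟩).1
        have b2 := ((g1 _).2 ⟨j', by simpa using hj', rfl⟩).1
        have := inj _ (by split_ifs <;> omega) _ (by split_ifs <;> omega) e
        split_ifs at this <;> omega
      · obtain ⟨b1, b2⟩ := mem_filter.1 (mem_coe.1 ha)
        obtain ⟨p, hp, b3, rfl⟩ := mem a b1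
        rw [hs p hp] at b2
        obtain ⟨j, hj, e⟩ := (g1 _).1 ⟨by split_ifs <;> omega, b2⟩
        refine ⟨j, by simpa using hj, congrArg φ ?_⟩
        rw [e]
        split_ifs <;> omega
    refine ⟨⟨fun a => s a % 2, fun a _ => Nat.mod_lt _ two_pos, fun i hi => ⟨fun a ha b hb e => ?_,
      key (· % 2) (2 * · + i) i k (fun t => ⟨fun h => ⟨t / 2, by omega, by omega⟩, by
        rintro ⟨j, hj, rfl⟩; omega⟩) fun x y h => by simp only at h; omega⟩⟩,
      fun a => s a / 2, fun a ha => ?_, fun i hi => ⟨fun a ha b hb e => ?_,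
      key (· / 2) (2 * i + ·) i 2 (fun t => ⟨fun h => ⟨t % 2, by omega, by omega⟩, by
        rintro ⟨j, hj, rfl⟩; omega⟩) fun x y h => by simp only at h; omega⟩⟩
    rotate_left
    · obtain ⟨p, hp, b3, rfl⟩ := mem a ha
      simp only [hs p hp]
      split_ifs <;> omega
    all_goals
      obtain ⟨a1, a2⟩ := mem_filter.1 (mem_coe.1 ha)
      obtain ⟨b1, b2⟩ := mem_filter.1 (mem_coe.1 hb)
      obtain ⟨p, hp, a3, rfl⟩ := mem a a1
      obtain ⟨q, hq, b3, rfl⟩ := mem b b1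
      have : p ≠ q := fun c => e (by rw [c])
      simp only [hs p hp, hs q hq] at a2 b2
      rw [adj p hp q hq, nc]
      split_ifs at a2 b2 <;> omega
  · suffices T.card ≤ 2 by nlinarith
    by_contra c
    obtain ⟨x, hx, y, hy, z, hz, e1, e2, e3⟩ := two_lt_card.1 (not_le.1 c)
    obtain ⟨p, hp, rfl⟩ := (hI x).1 (hT hx)
    obtain ⟨q, hq, rfl⟩ := (hI y).1 (hT hy)
    obtain ⟨r, hr, rfl⟩ := (hI z).1 (hT hz)
    have a1 := e hx hy e1
    have a2 := e hx hz e2
    have a3 := e hy hz e3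
    have : p ≠ q := fun c => e1 (by rw [c])
    have : p ≠ r := fun c => e2 (by rw [c])
    have : q ≠ r := fun c => e3 (by rw [c])
    simp only [adj, hp, hq, hr, nc] at a1 a2 a3
    omega

end

def verts (I : List (List Bool) × ℕ) : List (ℕ × ℕ) :=
  List.range (2 * I.2 + 1) ×ˢ List.range I.1.length

def red (I : List (List Bool) × ℕ) : List (List Bool) × List ℕ × ℕ :=
  (mat (verts I) fun a b => decide (ok I.1 I.2 a b), (verts I).map fun _ => 1, I.2)

lemma red_pt : PT red := by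
  have : PT verts := by unfold verts; fun_prop
  unfold red
  refine PT.pair (PT.mat this (PP.decide ?_)) (by fun_prop)
  unfold ok nc; fun_prop

lemma correct (M : List (List Bool)) (k : ℕ) (hM : IsGraph M) (hk : 2 ≤ k) :
    Valid (red (M, k)) ∧ (HasClq M k ↔ Viol (red (M, k))) := by
  have sy : ∀ p q, ok M k p q → ok M k q p := fun p q h =>
    ⟨by have := h.1; unfold nc at *; omega, by have := hM.2.2 p.2 q.2; have := h.2; tauto⟩
  have ir : ∀ p, ¬ ok M k p p := by simp [ok, nc]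
  have g : IsGraph (red (M, k)).1 := ⟨mat_row _ _, fun i h => by
      obtain ⟨_, _, h⟩ := (mat_get _ _ i i).1 h
      exact ir _ (by simpa using h), fun i j h => by
      obtain ⟨hi, hj, h⟩ := (mat_get _ _ i j).1 h
      exact (mat_get _ _ j i).2 ⟨hj, hi, by simpa using sy _ _ (by simpa using h)⟩⟩
  have l : ∀ a : Fin (red (M, k)).1.length, a.1 < (verts (M, k)).length := fun a => by
    simpa [red] using a.2
  let f : Fin (red (M, k)).1.length → ℕ × ℕ := fun i => (verts (M, k))[i.1]'(l i)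
  have h1 : ∀ a b, (graphOf (red (M, k)).1).Adj a b ↔ ok M k (f a) (f b) := fun a b => by
    simp only [graphOf, SimpleGraph.fromRel_adj, Entry, red, mat_get, l a, l b, exists_true_left,
      decide_eq_true_eq]
    exact ⟨fun h => h.2.elim id (sy _ _), fun h => ⟨fun e => ir _ (e ▸ h), Or.inl h⟩⟩
  have h2 : ∀ p, (∃ a, f a = p) ↔ p.1 ≤ 2 * k ∧ p.2 < M.length := by
    rintro ⟨a, b⟩
    trans (a, b) ∈ verts (M, k)
    · exact ⟨fun ⟨i, e⟩ => e ▸ List.getElem_mem _, fun h =>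
        let ⟨i, hi, e⟩ := List.getElem_of_mem h; ⟨⟨i, by simpa [red] using hi⟩, e⟩⟩
    · simp [verts, Nat.lt_succ_iff]
  have h3 : f.Injective := fun a b e => Fin.ext
    ((List.nodup_range.product List.nodup_range).getElem_inj_iff.1 e)
  have k0 : (0 : ℚ) < k := by exact_mod_cast (by omega)
  have x : ∀ I, xs (red (M, k)) I = I.card / k := fun I => by
    rw [xs, sum_congr rfl (g := fun _ => (1 : ℚ) / k) fun v _ => by simp [red, l v]]
    simp [div_eq_mul_inv]
  refine ⟨⟨g, by simp [red], by simp [red]; omega, by simp [red]; omega, fun K hK => ?_⟩, ?_⟩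
  · rw [x, div_le_one k0]
    exact_mod_cast clq_le h1 h2 hk hK
  · simp only [Viol, x, lt_div_iff₀ k0]
    norm_cast
    exact ⟨forth h1 h2 h3 hk hM, fun ⟨_, a, b⟩ => back h1 h2 h3 hk hM a b⟩

theorem result (Q : List (List Bool) × List ℕ × ℕ → Prop) (h : ∀ z, Valid z → (Q z ↔ Viol z)) :
    NPHard (Lang Q) :=
  (Hard.of_clique red_pt fun M k hM hk _ =>
    (correct M k hM hk).2.trans (h _ (correct M k hM hk).1).symm).npHard

end Pool.Agent.Results.MP_42fe4d_lc.NPHard
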